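import Pool.Agent.TH508.LT.Gap2

/-!
Rates `log n / √n`: conversions for the files `Pool.Agent.W387.Q.*` with the exponent two.
-/

set_option autoImplicit false

namespace Pool.Agent.TH303.LTwo

open Filter Topology Pool.Agent.W387.Q Pool.Agent.TH508.LT

/-- a rate `rN n` is a rate `log n / √n` -/
theorem rate {x : ℕ → ℝ} (h : ∃ K : ℝ, ∀ n : ℕ, 2 ≤ n → |x n| ≤ K * rN n) :
    ∃ K : ℝ, ∀ n : ℕ, 2 ≤ n → |x n| ≤ K * (Real.log n / Real.sqrt n) := by
  obtain ⟨K, hK⟩ := h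
  exact ⟨K, fun n hn => by rw [← rN_eq hn]; exact hK n hn⟩

/-- the gap condition -/
theorem gap (s : ℕ → ℕ) (hs : Tendsto s atTop atTop)
    (hgap : Tendsto (fun k => ((s (k + 1) : ℝ) - s k) * (Real.log (s k) / Real.sqrt (s k)))
      atTop (𝓝 0)) :
    Tendsto (fun k => ((s (k + 1) : ℝ) - s k) * rN (s k)) atTop (𝓝 0) := by
  refine hgap.congr' ?_
  filter_upwards [hs.eventually_ge_atTop 2] with k hk
  rw [rN_eq hk]

end Pool.Agent.TH303.LTwo
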